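import Pool.Agent.H.MP_fa645e_co.Core

namespace Pool.Agent.Results.MP_2bbbb5_co.Local

theorem result (V : Type) [Fintype V] (G : Digraph V) (_hG : ∀ u w : V, G.Adj u w → ¬ G.Adj w u)
    (v : V)
    (hX : ∀ X : Finset V, v ∈ X →
      2 * X.card ≤ {w | G.Adj v w}.ncard * ({w | G.Adj v w}.ncard + 1) + 2 →
      ∃ g ∈ X, {w | w ∈ X ∧ G.Adj g w}.ncard ≤
        {w | w ∈ X ∧ w ≠ g ∧ ¬ G.Adj g w ∧ ∃ u ∈ X, G.Adj g u ∧ G.Adj u w}.ncard) :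
    ∃ m : ℕ, m ≤ {w : V | G.Adj v w}.ncard ∧
      ∃ p : Fin (m + 1) → V, p 0 = v ∧
        (∀ i : Fin m, G.Adj (p i.castSucc) (p i.succ)) ∧
        {w : V | G.Adj (p (Fin.last m)) w}.ncard ≤
          {w : V | w ≠ p (Fin.last m) ∧ ¬ G.Adj (p (Fin.last m)) w ∧
            ∃ u : V, G.Adj (p (Fin.last m)) u ∧ G.Adj u w}.ncard := by
  rcases Pool.Agent.H.MP_fa645e_co.main (A := G.Adj) (fun _ => Set.toFinite _) (le_refl (1 : ℝ)) v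
    with ⟨g, ⟨m, hm, p, h0, hp, hl⟩, h⟩ | ⟨Y, h1, h2, h3⟩
  · refine ⟨m, hm, p, h0, hp, ?_⟩
    rw [hl]
    rw [one_mul] at h
    exact_mod_cast h
  · obtain ⟨g, hg, h⟩ := hX Y h1 h2
    have h4 := h3 g hg
    rw [one_mul] at h4
    exact absurd h (not_le.2 (by exact_mod_cast h4))

end Pool.Agent.Results.MP_2bbbb5_co.Local
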